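import Pool.Agent.Helper93.Final

set_option autoImplicit false

namespace Pool.Agent.Results.MP_45a28a_ag.StableComponents

open scoped BigOperators
open MvPolynomial

/-- Polynomial one-forms `∑ A i dx_i` in `n+1` variables. -/
abbrev Forms (n : ℕ) : Type := Fin (n + 1) → MvPolynomial (Fin (n + 1)) ℂ

/-- The affine cone over the space of codimension one foliations of degree `d` on `P^n`. -/
def Fol (n d : ℕ) : Set (Forms n) :=
  {A | (∀ i, (A i).IsHomogeneous (d + 1)) ∧
    (∑ i, (X i : MvPolynomial (Fin (n + 1)) ℂ) * A i) = 0 ∧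
    (∀ i j k : Fin (n + 1),
      A i * (pderiv j (A k) - pderiv k (A j)) +
      A j * (pderiv k (A i) - pderiv i (A k)) +
      A k * (pderiv i (A j) - pderiv j (A i)) = 0) ∧
    (∀ p : MvPolynomial (Fin (n + 1)) ℂ, (∀ i, p ∣ A i) → IsUnit p)}

/-- The Zariski topology on polynomial one-forms: basic open sets are the nonvanishing loci of
polynomials in the coefficients. -/
def zariski (n : ℕ) : TopologicalSpace (Forms n) :=
  TopologicalSpace.generateFrom
    {U : Set (Forms n) | ∃ f : MvPolynomial (Fin (n + 1) × (Fin (n + 1) →₀ ℕ)) ℂ,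
      U = {A : Forms n | eval (fun q : Fin (n + 1) × (Fin (n + 1) →₀ ℕ) =>
        (A q.1).coeff q.2) f ≠ 0}}

/-- The irreducible components of the space of foliations: maximal irreducible subsets. -/
def Components (n d : ℕ) : Set (Set (Forms n)) :=
  {S | Maximal (fun t : Set (Forms n) => t ⊆ Fol n d ∧ @IsIrreducible (Forms n) (zariski n) t) S}

/-- Pullback of a polynomial one-form in `m+1` variables by the linear map with matrix `φ`. -/
noncomputable def pullback {n m : ℕ} (φ : Fin (m + 1) → Fin (n + 1) → ℂ) (A : Forms m) : Forms n :=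
  fun i => ∑ j, C (φ j i) * aeval (fun k => ∑ l, C (φ k l) * (X l : MvPolynomial (Fin (n + 1)) ℂ)) (A j)

/-- All foliations of degree `d` on `P^n` that are linear pullbacks (restrictions, when the linear
map is injective) of members of `S`. -/
def Restriction (n m d : ℕ) (S : Set (Forms m)) : Set (Forms n) :=
  {B | B ∈ Fol n d ∧ ∃ φ : Fin (m + 1) → Fin (n + 1) → ℂ, ∃ A ∈ S, B = pullback φ A}

theorem Components_eq (n d : ℕ) : Components n d =
    Helper93.Comp (Helper93.RE (n + 1)) (Helper93.FolS (n + 1) d) := by
  have hFol : ∀ n, Fol n d = Helper93.FolS (n + 1) d := by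
    intro n
    ext A
    unfold Fol Helper93.FolS Helper93.IntS Helper93.Cop Helper93.GG
    simp only [Set.mem_ofPred_eq, and_assoc]
  have h1 : zariski n = Helper93.zar (Helper93.RE (n + 1)) := (Helper93.zar_eq (n + 1)).symm
  have h2 : (fun t : Set (Forms n) => t ⊆ Fol n d ∧ @IsIrreducible (Forms n) (zariski n) t) =
      (fun t => t ⊆ Helper93.FolS (n + 1) d ∧ Helper93.Irr (Helper93.RE (n + 1)) t) := by
    funext t
    apply propext
    rw [hFol, h1]
    exact and_congr Iff.rfl (Helper93.isIrreducible_iff (Helper93.RE (n + 1)) t)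
  unfold Components Helper93.Comp
  rw [h2]

theorem Restriction_eq (n m d : ℕ) (S : Set (Forms m)) :
    Restriction n m d S = Helper93.rst (n + 1) (m + 1) d S := by
  have hFol : ∀ n, Fol n d = Helper93.FolS (n + 1) d := by
    intro n
    ext A
    unfold Fol Helper93.FolS Helper93.IntS Helper93.Cop Helper93.GG
    simp only [Set.mem_ofPred_eq, and_assoc]
  unfold Restriction Helper93.rst
  rw [hFol]
  rfl

/-- For every degree `d` the number of irreducible components of the space of codimension one
foliations of degree `d` on `P^n` is finite, nondecreasing in `n` and eventually constant; in the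
stable range the components for `P^m` and for `P^n`, `m ≥ n`, correspond bijectively to each
other by restriction. -/
theorem result (d : ℕ) :
    (∀ n : ℕ, (Components n d).Finite) ∧
    (∀ n m : ℕ, n ≤ m → (Components n d).ncard ≤ (Components m d).ncard) ∧
    (∃ n0 : ℕ, ∀ n m : ℕ, n0 ≤ n → n ≤ m →
      (Components n d).ncard = (Components m d).ncard ∧
      Set.BijOn (Restriction n m d) (Components m d) (Components n d)) := by
  simp only [Components_eq]
  have hmono : ∀ n m : ℕ, n ≤ m → (Helper93.Comp (Helper93.RE (n + 1))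
      (Helper93.FolS (n + 1) d)).ncard ≤ (Helper93.Comp (Helper93.RE (m + 1))
      (Helper93.FolS (m + 1) d)).ncard :=
    fun n m h => Helper93.comp_mono (Nat.succ_pos n) (Nat.succ_le_succ h)
  refine ⟨fun n => Helper93.comp_finite (Nat.succ_pos n), hmono, ?_⟩
  obtain ⟨J, hJ⟩ := Helper93.comp_bounded d
  obtain ⟨n0, hn0⟩ := Helper93.eventually_const
    (fun n => (Helper93.Comp (Helper93.RE (n + 1)) (Helper93.FolS (n + 1) d)).ncard)
    (fun n m h => hmono n m h) J (fun n => hJ (n + 1) (Nat.succ_pos n))
  refine ⟨n0, ?_⟩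
  intro n m hn hnm
  have h1 := hn0 n hn
  have h2 := hn0 m (hn.trans hnm)
  refine ⟨h1.trans h2.symm, ?_⟩
  have h3 := Helper93.rst_bijOn (d := d) (Nat.succ_pos n) (Nat.succ_le_succ hnm)
    (by show (Helper93.Comp (Helper93.RE (m + 1)) (Helper93.FolS (m + 1) d)).ncard ≤ _
        exact le_of_eq (h2.trans h1.symm))
  have h4 : (fun S => Restriction n m d S) = Helper93.rst (n + 1) (m + 1) d := by
    funext S
    exact Restriction_eq n m d S
  show Set.BijOn (fun S => Restriction n m d S) _ _
  rw [h4]
  exact h3

end Pool.Agent.Results.MP_45a28a_ag.StableComponents
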